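import Pool.Agent.Helper23.CB.LatF
import Pool.Agent.Helper4.CB.STM

/-!
# CB, degree <= 3: coordinates, norms and values of the form
-/

set_option autoImplicit false

namespace Pool.Agent.Helper60.CB

open Finset Module NumberField Polynomial Pool.Agent.Helper4.CB Pool.Agent.Helper23.CB

theorem sz_zsmul {n : ℕ} {O : Type} [CommRing O] (B : Basis (Fin n) ℤ O) (k : ℤ) (x : O) :
    sz B (k • x) ≤ k.natAbs * sz B x := by
  rw [sz_le]
  intro i
  rw [map_zsmul, Finsupp.smul_apply, smul_eq_mul, abs_mul]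
  push_cast
  exact mul_le_mul_of_nonneg_left (abs_repr_le B x i) (abs_nonneg k)

theorem sz2_zsmul {n : ℕ} {O : Type} [CommRing O] (B : Basis (Fin n) ℤ O) (k : ℤ) (x : O × O) :
    sz2 B (k • x) ≤ k.natAbs * sz2 B x := by
  rw [sz2_le]
  have h := sz2_le.1 (le_refl (sz2 B x))
  exact ⟨(sz_zsmul B k x.1).trans (Nat.mul_le_mul_left _ h.1),
    (sz_zsmul B k x.2).trans (Nat.mul_le_mul_left _ h.2)⟩

/-- sizes and coordinates -/
theorem exists_coord {n : ℕ} {O : Type} [CommRing O] (B : Basis (Fin n) ℤ O)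
    (e : (Fin (2 * n) → ℤ) ≃+ O × O) :
    ∃ C : ℕ, (∀ w i, |e.symm w i| ≤ C * sz2 B w) ∧
      ∀ (w : O × O) (X : ℕ), (∀ i, |e.symm w i| ≤ X) → sz2 B w ≤ C * X := by
  classical
  set C1 : ℕ := ∑ i, ∑ j, ((e.symm (B j, 0) i).natAbs + (e.symm (0, B j) i).natAbs) with hC1
  set C2 : ℕ := ∑ i, sz2 B (e (Pi.single i 1)) with hC2
  refine ⟨max C1 C2, ?_, ?_⟩
  · intro w i
    have hw : w = ∑ j, ((B.repr w.1 j) • (B j, (0 : O)) + (B.repr w.2 j) • ((0 : O), B j)) := by
      refine Prod.ext ?_ ?_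
      · rw [Prod.fst_sum]
        conv_lhs => rw [← B.sum_repr w.1]
        refine Finset.sum_congr rfl fun j _ => ?_
        simp
      · rw [Prod.snd_sum]
        conv_lhs => rw [← B.sum_repr w.2]
        refine Finset.sum_congr rfl fun j _ => ?_
        simp
    have h1 : e.symm w i = ∑ j, ((B.repr w.1 j) * e.symm (B j, (0 : O)) i +
        (B.repr w.2 j) * e.symm ((0 : O), B j) i) := by
      conv_lhs => rw [hw]
      rw [map_sum, Finset.sum_apply]
      refine Finset.sum_congr rfl fun j _ => ?_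
      rw [map_add, map_zsmul, map_zsmul, Pi.add_apply, Pi.smul_apply, Pi.smul_apply,
        smul_eq_mul, smul_eq_mul]
    have h2 : |e.symm w i| ≤ (C1 : ℤ) * sz2 B w := by
      rw [h1]
      refine (Finset.abs_sum_le_sum_abs _ _).trans ?_
      have h3 : ∀ j ∈ (univ : Finset (Fin n)), |(B.repr w.1 j) * e.symm (B j, (0 : O)) i +
          (B.repr w.2 j) * e.symm ((0 : O), B j) i| ≤
          (((e.symm (B j, 0) i).natAbs + (e.symm (0, B j) i).natAbs : ℕ) : ℤ) * sz2 B w := by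
        intro j _
        have h4 : |B.repr w.1 j| ≤ (sz2 B w : ℤ) := (abs_repr_le B w.1 j).trans
          (by exact_mod_cast (sz2_le.1 (le_refl (sz2 B w))).1)
        have h5 : |B.repr w.2 j| ≤ (sz2 B w : ℤ) := (abs_repr_le B w.2 j).trans
          (by exact_mod_cast (sz2_le.1 (le_refl (sz2 B w))).2)
        refine (abs_add_le _ _).trans ?_
        rw [abs_mul, abs_mul]
        push_cast
        have h6 := mul_le_mul_of_nonneg_right h4 (abs_nonneg (e.symm (B j, (0 : O)) i))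
        have h7 := mul_le_mul_of_nonneg_right h5 (abs_nonneg (e.symm ((0 : O), B j) i))
        calc _ ≤ _ := add_le_add h6 h7
          _ = _ := by ring
      refine (Finset.sum_le_sum h3).trans ?_
      rw [← Finset.sum_mul]
      refine mul_le_mul_of_nonneg_right ?_ (Int.natCast_nonneg _)
      rw [← Nat.cast_sum]
      exact_mod_cast Finset.single_le_sum
        (f := fun i => ∑ j, ((e.symm (B j, (0 : O)) i).natAbs + (e.symm ((0 : O), B j) i).natAbs))
        (fun _ _ => Nat.zero_le _) (mem_univ i)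
    refine h2.trans (mul_le_mul_of_nonneg_right ?_ (Int.natCast_nonneg _))
    exact_mod_cast le_max_left C1 C2
  · intro w X hX
    have hw : w = ∑ i, (e.symm w i) • e (Pi.single i 1) := by
      have h1 : e.symm w = ∑ i, (e.symm w i) • (Pi.single i (1 : ℤ) : Fin (2 * n) → ℤ) := by
        refine funext fun k => ?_
        rw [Finset.sum_apply, Finset.sum_eq_single k]
        · simp
        · intro j _ hj
          simp [hj.symm]
        · intro h
          exact absurd (mem_univ k) h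
      calc w = e (e.symm w) := (e.apply_symm_apply w).symm
        _ = e (∑ i, (e.symm w i) • (Pi.single i (1 : ℤ) : Fin (2 * n) → ℤ)) := congrArg e h1
        _ = _ := by
          rw [map_sum]
          exact Finset.sum_congr rfl fun i _ => map_zsmul e _ _
    have h1 : sz2 B w ≤ C2 * X := by
      calc sz2 B w = sz2 B (∑ i, (e.symm w i) • e (Pi.single i 1)) := congrArg _ hw
        _ ≤ ∑ i, sz2 B ((e.symm w i) • e (Pi.single i 1)) := sz2_sum_le B _ _
        _ ≤ ∑ i, sz2 B (e (Pi.single i 1)) * X := by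
          refine Finset.sum_le_sum fun i _ => (sz2_zsmul B _ _).trans ?_
          rw [mul_comm]
          refine Nat.mul_le_mul_left _ ?_
          have := hX i
          rw [Int.abs_eq_natAbs] at this
          exact_mod_cast this
        _ = C2 * X := by rw [hC2, Finset.sum_mul]
    exact h1.trans (Nat.mul_le_mul_right _ (le_max_right _ _))

/-- the norm of an element of given size -/
theorem exists_norm_le (K : Type) [Field K] [NumberField K] {n : ℕ}
    (B : Basis (Fin n) ℤ (𝓞 K)) : ∃ C : ℕ, 0 < C ∧ ∀ x : 𝓞 K, x ≠ 0 →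
      Ideal.absNorm (Ideal.span {x}) ≤ C * sz B x ^ n := by
  have hpos := ClassGroup.normBound_pos AbsoluteValue.abs B
  refine ⟨(ClassGroup.normBound AbsoluteValue.abs B).natAbs, Int.natAbs_pos.2 hpos.ne', ?_⟩
  intro x _
  have h1 := ClassGroup.norm_le AbsoluteValue.abs B x (y := (sz B x : ℤ))
    (fun k => abs_repr_le B x k)
  rw [Ideal.absNorm_span_singleton]
  rw [Fintype.card_fin] at h1
  have h2 : (((Algebra.norm ℤ x).natAbs : ℕ) : ℤ) ≤
      (((ClassGroup.normBound AbsoluteValue.abs B).natAbs * sz B x ^ n : ℕ) : ℤ) := by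
    push_cast
    rw [abs_of_pos hpos]
    exact h1
  exact_mod_cast h2

/-- an ideal dividing a value of the form at a vector of its lattice -/
theorem hv_mem (K : Type) [Field K] [NumberField K] (P : (𝓞 K)[X]) (_hP : P.Monic) (m : ℕ)
    (b : Ideal (𝓞 K)) (t : 𝓞 K) (ht : P.eval t ∈ b) (w : 𝓞 K × 𝓞 K)
    (hw : w ∈ Lam b (t * m)) : hv P w.1 (m * w.2) ∈ b := by
  rw [mem_Lam] at hw
  unfold hv
  have h1 := Polynomial.sub_dvd_eval_sub w.1 (m * w.2 * t) (P.scaleRoots (m * w.2))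
  rw [Polynomial.scaleRoots_eval_mul] at h1
  have h2 : w.1 - m * w.2 * t ∈ b := by
    have : w.1 - m * w.2 * t = w.1 - t * m * w.2 := by ring
    rw [this]
    exact hw
  have h3 := b.mem_of_dvd h1 h2
  have h4 := b.mul_mem_left ((m * w.2) ^ P.natDegree) ht
  have := b.add_mem h3 h4
  rwa [sub_add_cancel] at this

/-- the form has no zeros -/
theorem hv_ne_zero (K : Type) [Field K] [NumberField K] (P : (𝓞 K)[X]) (hP : P.Monic)
    (hd : 2 ≤ P.natDegree) (hirr : Irreducible (P.map (algebraMap (𝓞 K) K))) (m : ℕ) (hm : m ≠ 0)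
    (w : 𝓞 K × 𝓞 K) (hw : w ≠ 0) : hv P w.1 (m * w.2) ≠ 0 := by
  intro h0
  have hmK : (m : 𝓞 K) ≠ 0 := Nat.cast_ne_zero.2 hm
  by_cases hv0 : w.2 = 0
  · unfold hv at h0
    rw [hv0, mul_zero, Polynomial.scaleRoots_zero, hP.leadingCoeff, one_smul, eval_pow,
      eval_X] at h0
    have h1 : w.1 = 0 := pow_eq_zero_iff (by omega) |>.1 h0
    exact hw (Prod.ext h1 hv0)
  · have hne : (m : 𝓞 K) * w.2 ≠ 0 := mul_ne_zero hmK hv0
    have hneK : algebraMap (𝓞 K) K ((m : 𝓞 K) * w.2) ≠ 0 := by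
      rwa [Ne, map_eq_zero_iff _ (IsFractionRing.injective (𝓞 K) K)]
    unfold hv at h0
    have h1 : algebraMap (𝓞 K) K ((P.scaleRoots (m * w.2)).eval w.1) = 0 := by
      rw [h0, map_zero]
    have h2 := Polynomial.scaleRoots_eval₂_mul (p := P) (algebraMap (𝓞 K) K)
      (algebraMap (𝓞 K) K w.1 / algebraMap (𝓞 K) K ((m : 𝓞 K) * w.2)) ((m : 𝓞 K) * w.2)
    rw [mul_div_cancel₀ _ hneK, eval₂_at_apply, h1] at h2
    have h3 : eval₂ (algebraMap (𝓞 K) K)
        (algebraMap (𝓞 K) K w.1 / algebraMap (𝓞 K) K ((m : 𝓞 K) * w.2)) P = 0 := by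
      rcases mul_eq_zero.1 h2.symm with h | h
      · exact absurd h (pow_ne_zero _ hneK)
      · exact h
    rw [← eval_map] at h3
    have h4 := Polynomial.degree_eq_one_of_irreducible_of_root hirr h3
    have h5 : (P.map (algebraMap (𝓞 K) K)).natDegree = 1 := natDegree_eq_of_degree_eq_some h4
    rw [hP.natDegree_map] at h5
    omega

theorem exists_sz_pow {n : ℕ} {O : Type} [CommRing O] (B : Basis (Fin n) ℤ O) : ∃ C : ℕ,
    0 < C ∧ (∀ x y : O, sz B (x * y) ≤ C * (sz B x * sz B y)) ∧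
      ∀ (x : O) (k : ℕ), sz B (x ^ k) ≤ (C * sz B x) ^ k * sz B 1 := by
  obtain ⟨C, hC⟩ := exists_sz_mul B
  have h1 : ∀ x y : O, sz B (x * y) ≤ (C + 1) * (sz B x * sz B y) := fun x y =>
    (hC x y).trans (Nat.mul_le_mul_right _ (Nat.le_succ C))
  refine ⟨C + 1, Nat.succ_pos C, h1, ?_⟩
  intro x k
  induction k with
  | zero => simp
  | succ k ih =>
    rw [pow_succ']
    refine (h1 _ _).trans ?_
    calc (C + 1) * (sz B x * sz B (x ^ k))
        ≤ (C + 1) * (sz B x * (((C + 1) * sz B x) ^ k * sz B 1)) :=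
          Nat.mul_le_mul_left _ (Nat.mul_le_mul_left _ ih)
      _ = _ := by ring

/-- the size of the form -/
theorem exists_sz_hv {n : ℕ} (K : Type) [Field K] [NumberField K]
    (B : Basis (Fin n) ℤ (𝓞 K)) (P : (𝓞 K)[X]) (m : ℕ) : ∃ C : ℕ, ∀ w : 𝓞 K × 𝓞 K,
      sz B (hv P w.1 (m * w.2)) ≤ C * sz2 B w ^ P.natDegree := by
  obtain ⟨C, hC0, hC, hCp⟩ := exists_sz_pow B
  set d := P.natDegree with hd
  set S1 := sz B (1 : 𝓞 K) with hS1
  refine ⟨∑ i ∈ range (d + 1), C * (C * (sz B (P.coeff i) * (((C * (m + 1)) ^ d) * S1)) *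
    (((C * (m + 1)) ^ d) * S1)), ?_⟩
  intro w
  set s := sz2 B w with hs
  have hs1 := (sz2_le.1 (le_refl (sz2 B w))).1
  have hs2 := (sz2_le.1 (le_refl (sz2 B w))).2
  have hmw : sz B ((m : 𝓞 K) * w.2) ≤ (m + 1) * s := by
    have h1 := sz_zsmul B (m : ℤ) w.2
    have h2 : ((m : ℤ) • w.2) = (m : 𝓞 K) * w.2 := by
      rw [zsmul_eq_mul]
      push_cast
      rfl
    rw [h2, Int.natAbs_natCast] at h1
    exact h1.trans (Nat.mul_le_mul (Nat.le_succ m) hs2)
  have hw1 : sz B w.1 ≤ (m + 1) * s := hs1.trans (Nat.le_mul_of_pos_left _ (Nat.succ_pos m))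
  unfold hv
  rw [eval_eq_sum_range, natDegree_scaleRoots, Finset.sum_mul]
  refine (sz_sum_le B _ _).trans (Finset.sum_le_sum fun i hi => ?_)
  have hid : i ≤ d := Nat.lt_succ_iff.1 (Finset.mem_range.1 hi)
  rw [coeff_scaleRoots, ← hd]
  have hA : sz B ((m * w.2) ^ (d - i)) ≤ (C * (m + 1)) ^ d * S1 * s ^ (d - i) := by
    refine (hCp _ _).trans ?_
    calc (C * sz B ((m : 𝓞 K) * w.2)) ^ (d - i) * S1
        ≤ (C * ((m + 1) * s)) ^ (d - i) * S1 :=
          Nat.mul_le_mul_right _ (Nat.pow_le_pow_left (Nat.mul_le_mul_left _ hmw) _)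
      _ = (C * (m + 1)) ^ (d - i) * S1 * s ^ (d - i) := by
          rw [← mul_assoc C (m + 1) s, mul_pow (C * (m + 1)) s]
          ring
      _ ≤ (C * (m + 1)) ^ d * S1 * s ^ (d - i) := by
          refine Nat.mul_le_mul_right _ (Nat.mul_le_mul_right _ ?_)
          exact Nat.pow_le_pow_right (Nat.mul_pos hC0 (Nat.succ_pos m)) (Nat.sub_le _ _)
  have hB : sz B (w.1 ^ i) ≤ (C * (m + 1)) ^ d * S1 * s ^ i := by
    refine (hCp _ _).trans ?_
    calc (C * sz B w.1) ^ i * S1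
        ≤ (C * ((m + 1) * s)) ^ i * S1 :=
          Nat.mul_le_mul_right _ (Nat.pow_le_pow_left (Nat.mul_le_mul_left _ hw1) _)
      _ = (C * (m + 1)) ^ i * S1 * s ^ i := by
          rw [← mul_assoc C (m + 1) s, mul_pow (C * (m + 1)) s]
          ring
      _ ≤ (C * (m + 1)) ^ d * S1 * s ^ i := by
          refine Nat.mul_le_mul_right _ (Nat.mul_le_mul_right _ ?_)
          exact Nat.pow_le_pow_right (Nat.mul_pos hC0 (Nat.succ_pos m)) hid
  have hpow : s ^ (d - i) * s ^ i = s ^ d := by rw [← pow_add, Nat.sub_add_cancel hid]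
  calc sz B (P.coeff i * (m * w.2) ^ (d - i) * w.1 ^ i)
      ≤ C * (sz B (P.coeff i * (m * w.2) ^ (d - i)) * sz B (w.1 ^ i)) := hC _ _
    _ ≤ C * ((C * (sz B (P.coeff i) * sz B ((m * w.2) ^ (d - i)))) * sz B (w.1 ^ i)) :=
        Nat.mul_le_mul_left _ (Nat.mul_le_mul_right _ (hC _ _))
    _ ≤ C * ((C * (sz B (P.coeff i) * ((C * (m + 1)) ^ d * S1 * s ^ (d - i)))) *
        ((C * (m + 1)) ^ d * S1 * s ^ i)) :=
        Nat.mul_le_mul_left _ (Nat.mul_le_mul (Nat.mul_le_mul_left _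
          (Nat.mul_le_mul_left _ hA)) hB)
    _ = C * (C * (sz B (P.coeff i) * (((C * (m + 1)) ^ d) * S1)) *
        (((C * (m + 1)) ^ d) * S1)) * (s ^ (d - i) * s ^ i) := by ring
    _ = _ := by rw [hpow]

/-- the norm of the form -/
theorem exists_norm_hv_le (K : Type) [Field K] [NumberField K] {n : ℕ}
    (B : Basis (Fin n) ℤ (𝓞 K)) (P : (𝓞 K)[X]) (m : ℕ) : ∃ C : ℕ, 0 < C ∧ ∀ w : 𝓞 K × 𝓞 K,
      hv P w.1 (m * w.2) ≠ 0 →
      Ideal.absNorm (Ideal.span {hv P w.1 (m * w.2)}) ≤ C * sz2 B w ^ (P.natDegree * n) := by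
  obtain ⟨C1, hC1, h1⟩ := exists_norm_le K B
  obtain ⟨C2, h2⟩ := exists_sz_hv K B P m
  refine ⟨C1 * C2 ^ n + 1, Nat.succ_pos _, fun w hw => ?_⟩
  calc Ideal.absNorm (Ideal.span {hv P w.1 (m * w.2)})
      ≤ C1 * sz B (hv P w.1 (m * w.2)) ^ n := h1 _ hw
    _ ≤ C1 * (C2 * sz2 B w ^ P.natDegree) ^ n :=
        Nat.mul_le_mul_left _ (Nat.pow_le_pow_left (h2 w) n)
    _ = C1 * C2 ^ n * sz2 B w ^ (P.natDegree * n) := by rw [mul_pow, ← pow_mul]; ring
    _ ≤ _ := Nat.mul_le_mul_right _ (Nat.le_succ _)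

end Pool.Agent.Helper60.CB
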